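import Pool.Agent.H95.MeasAlg

set_option autoImplicit false
open Pool.Agent.H95.MeasAlg

theorem Pool.Agent.Results.MP_6afee3_an.Yes.result :
    ∃ (G : Type) (_ : CommGroup G) (_ : TopologicalSpace G) (_ : IsTopologicalGroup G)
      (_ : CompactSpace G), T2Space G ∧ ∃ J : Set (M G), LeftIdeal J ∧ IsClosed J ∧ ¬ FinGen J :=
  Pool.Agent.H95.MeasAlg.main
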